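import Mathlib
import Pool.Agent.V11180.BG.PartMain

/-!
# MP_2d55ae_co: Bohr sets in sums of endomorphic images of partition cells

For `d ≥ 3` endomorphisms of an abelian group whose images have finite index and some nonempty
subfamily of which has sum zero, every finite cover of the group has a cell `A` such that
`φ₁(A) + ⋯ + φ_d(A)` contains a Bohr set whose rank and radius are controlled by `d`, the number of
cells and the indices.
-/

set_option autoImplicit false

open Finset

namespace Pool.Agent.Results.MP_2d55ae_co.BohrInCells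

open Pool.Agent.V11180.BG

universe u

/-- the Bohr set of the characters in `X` and radius `η`; its rank is the number of elements
of `X` -/
def bohr {G : Type u} [AddCommGroup G] (X : Finset (AddChar G Circle)) (η : ℝ) : Set G :=
  {g | ∀ χ ∈ X, ‖((χ g : Circle) : ℂ) - 1‖ < η}

/-- the set `φ₁(A) + ⋯ + φ_d(A)` -/
def imageSum {G : Type u} [AddCommGroup G] {d : ℕ} (φ : Fin d → G →+ G) (A : Set G) : Set G :=
  {g | ∃ a : Fin d → G, (∀ j, a j ∈ A) ∧ g = ∑ j, φ j (a j)}

/-- **Bohr sets in sums of endomorphic images of partition cells.** The cells need only cover the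
group. -/
theorem result (d : ℕ) (hd : 3 ≤ d) (r : ℕ) (hr : 1 ≤ r) (n : ℕ) :
    ∃ k : ℕ, ∃ η : ℝ, 0 < η ∧
      ∀ (G : Type u) [AddCommGroup G] (φ : Fin d → G →+ G),
        (∀ j, (φ j).range.index ≠ 0 ∧ (φ j).range.index ≤ n) →
        (∃ S : Finset (Fin d), S.Nonempty ∧ ∑ j ∈ S, φ j = 0) →
        ∀ A : Fin r → Set G, ⋃ i, A i = Set.univ →
          ∃ i : Fin r, ∃ X : Finset (AddChar G Circle), X.card ≤ k ∧
            bohr X η ⊆ imageSum φ (A i) := by
  obtain ⟨K, η, hη, h⟩ := partition.{u} d hd r hr n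
  refine ⟨K, η, hη, ?_⟩
  rintro G _ φ hn ⟨S, hS, hSφ⟩ A hA
  have hex : ∀ x : G, ∃ i, x ∈ A i := fun x => by
    have : x ∈ ⋃ i, A i := hA ▸ Set.mem_univ x
    exact Set.mem_iUnion.1 this
  choose χ hχ using hex
  obtain ⟨i, X, hX, hX2⟩ := h G φ hn S hS hSφ χ
  refine ⟨i, X, hX, fun g hg => ?_⟩
  obtain ⟨a, ha, hag⟩ := hX2 g hg
  exact ⟨a, fun l => ha l ▸ hχ (a l), hag.symm⟩

end Pool.Agent.Results.MP_2d55ae_co.BohrInCells
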